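import Pool.Agent.Helper47.TD7

open unitInterval Finset

namespace Pool.Agent.Results.MP_d6a58d_co.HalfIntegral

/-- A loopless multigraph with vertex type `V` and edge type `E`: every edge has two distinct
ends, and several edges may have the same ends. -/
structure Multigraph (V E : Type*) where
  /-- the unordered pair of ends of an edge -/
  ends : E → Sym2 V
  /-- no loops -/
  loopless : ∀ e, ¬ (ends e).IsDiag

variable {V E : Type*}

/-- `M` has an embedding in the plane `ℂ`: distinct vertices are distinct points, every edge is a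
simple arc joining its two ends, the interior of an arc contains no vertex, and arcs of different
edges meet only in vertices. -/
def Multigraph.IsPlanar (M : Multigraph V E) : Prop :=
  ∃ (pt : V → ℂ) (arc : E → I → ℂ),
    Function.Injective pt ∧
    (∀ e, Continuous (arc e) ∧ Function.Injective (arc e)) ∧
    (∀ e, (M.ends e).map pt = s(arc e 0, arc e 1)) ∧
    (∀ e t v, arc e t = pt v → t = 0 ∨ t = 1) ∧
    (∀ e e', e ≠ e' → ∀ t t', arc e t = arc e' t' → ∃ v, arc e t = pt v)

/-- A triangle (copy of `K₃`), given by its set of three edges: one edge `e₁` joining `u, v`, one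
edge `e₂` joining `v, w` and one edge `e₃` joining `w, u`, where `u, v, w` are distinct. -/
def Multigraph.IsTriangle [DecidableEq E] (M : Multigraph V E) (τ : Finset E) : Prop :=
  ∃ u v w : V, u ≠ v ∧ v ≠ w ∧ w ≠ u ∧ ∃ e₁ e₂ e₃ : E,
    M.ends e₁ = s(u, v) ∧ M.ends e₂ = s(v, w) ∧ M.ends e₃ = s(w, u) ∧ τ = {e₁, e₂, e₃}

open Classical in
/-- A rational `K₃`-decomposition: nonnegative rational weights on the triangles such that for
every edge `e` the weights of the triangles containing `e` sum to `1`. -/
def Multigraph.IsRationalDecomposition [Fintype E] (M : Multigraph V E)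
    (wt : Finset E → ℚ) : Prop :=
  (∀ τ, M.IsTriangle τ → 0 ≤ wt τ) ∧
  ∀ e, ∑ τ ∈ univ.filter (fun τ : Finset E => M.IsTriangle τ ∧ e ∈ τ), wt τ = 1

open Classical in
/-- Every planar multigraph with a rational `K₃`-decomposition has one in which all triangle
weights are `0`, `1/2` or `1`. -/
theorem result (V E : Type*) [Fintype V] [Fintype E] (M : Multigraph V E) (hM : M.IsPlanar)
    (h : ∃ wt : Finset E → ℚ, M.IsRationalDecomposition wt) :
    ∃ wt : Finset E → ℚ, M.IsRationalDecomposition wt ∧
      ∀ τ, M.IsTriangle τ → wt τ = 0 ∨ wt τ = 1 / 2 ∨ wt τ = 1 := by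
  obtain ⟨pt, arc, h1, h2, h3, h4, h5⟩ := hM
  obtain ⟨wt, hw0, hw1⟩ := h
  have hd : Helper47.TD.Drawing M.ends pt arc := ⟨h1, fun e => (h2 e).1, h3, h4, h5⟩
  obtain ⟨wt', g1, g2⟩ := Helper47.TD.multi M.ends M.loopless hd.p5 wt hw0 hw1
  refine ⟨wt', ⟨fun τ hτ => ?_, g2⟩, g1⟩
  rcases g1 τ hτ with h | h | h <;> rw [h] <;> norm_num

end Pool.Agent.Results.MP_d6a58d_co.HalfIntegral
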